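import Mathlib
import Pool.Agent.TH87.IS.Main

set_option autoImplicit false

/-!
# Every non-amenable group splits into two sets of `is₁₂`-density zero

Idea. Let `Q` be a minimal nonempty compact convex `G`-invariant set of finitely additive
probability measures on `G`. If `G` is not amenable, `Q` is not a point, so the value at some set
`C` takes a minimum `a` and a maximum `b > a` on `Q`. By minimality every orbit in `Q` has `Q` as its
closed convex hull, so compactness and the minimax principle give, for every `ε`, one finitely
supported probability measure `p` such that the `p`-average of the translates of any `m ∈ Q` has
value at most `a + ε` at `C`; similarly for `b - ε`. For `m ∈ Q` the function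
`F(y) = m(y⁻¹ C)` with values in `[a, b]` then has all its `p`-averages at most `a + ε`, so the set
where `F` is at least `(a + b) / 2` has `is₁₂`-density zero, and so has its complement.
-/

namespace Pool.Agent.Results.MP_d97def_al.NullPartition

open Pool.Agent.TH87.IS

universe u

/-- On every non-amenable group there is a set `A` with `is₁₂(A) = is₁₂(G \ A) = 0`. Hence every
group with property (d) and every group with property (a) is amenable. -/
theorem result (G : Type u) [Group G] :
    (¬ IsAmenable G → ∃ A : Set G, is12 A = 0 ∧ is12 Aᶜ = 0) ∧
    (PropertyD G → IsAmenable G) ∧ (PropertyA G → IsAmenable G) :=
  ⟨exists_null_partition, amenable_of_propertyD, amenable_of_propertyA⟩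

end Pool.Agent.Results.MP_d97def_al.NullPartition
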